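import Pool.Agent.Helper99.DF.St

set_option autoImplicit false

/-! Project DF (helper99), module GR: recursion of the normalised iterates. -/

namespace Pool.Agent.Helper4.DF

open Pool.Agent.Helper99.DF

theorem gg_rec {b al : ℕ → ℝ} (t k : ℕ) :
    gg b al (t + 1) k = gg b al t k ^ 2 -
      Real.exp (-(2 ^ t * cc al k)) * (gg b al t (k - 1) * gg b al t (k + 1)) := by
  unfold gg
  rw [T_succ]
  have h1 : Real.exp (-(2 ^ (t + 1) * al k)) = Real.exp (-(2 ^ t * al k)) ^ 2 := by
    rw [← Real.exp_nat_mul]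
    congr 1
    push_cast
    ring
  have h2 : Real.exp (-(2 ^ (t + 1) * al k)) = Real.exp (-(2 ^ t * cc al k)) *
      (Real.exp (-(2 ^ t * al (k - 1))) * Real.exp (-(2 ^ t * al (k + 1)))) := by
    rw [← Real.exp_add, ← Real.exp_add]
    congr 1
    unfold cc
    ring
  rw [sub_mul, mul_pow, ← h1]
  conv_lhs => rw [h2]
  rw [h2]
  ring

theorem hGR : StGR := by
  intro S b al hP t k hk
  refine ⟨fun _ => gg_rec t k, fun hna => ?_⟩
  have h0 : (T^[t] b) (k - 1) * (T^[t] b) (k + 1) = 0 := by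
    rw [mem_act] at hna
    by_cases h1 : k - 1 ∈ S
    · have h2 : k + 1 ∉ S := fun h2 => hna ⟨hk, h1, h2⟩
      rw [hP.zero h2, mul_zero]
    · rw [hP.zero h1, zero_mul]
  unfold gg
  rw [T_succ, h0, sub_zero, mul_pow, ← Real.exp_nat_mul]
  congr 2
  push_cast
  ring

end Pool.Agent.Helper4.DF
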