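import Pool.Agent.Helper99.DF.St

set_option autoImplicit false

/-! Project DF (helper99), module UL: limits of the ratios. -/

namespace Pool.Agent.Helper4.DF

open Pool.Agent.Helper99.DF Filter Topology

theorem exp_dbl_tendsto {c : ℝ} (hc : 0 < c) :
    Tendsto (fun t : ℕ => Real.exp (-(c * 2 ^ t))) atTop (𝓝 0) := by
  refine Real.tendsto_exp_neg_atTop_nhds_zero.comp ?_
  exact (tendsto_pow_atTop_atTop_of_one_lt (by norm_num : (1 : ℝ) < 2)).const_mul_atTop hc

theorem uu_eq {b al : ℕ → ℝ} (t k : ℕ) :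
    uu b t k = Real.exp (-(2 ^ t * cc al k)) * (gg b al t (k - 1) * gg b al t (k + 1)) /
      gg b al t k ^ 2 := by
  unfold uu gg
  have h1 : Real.exp (-(2 ^ t * cc al k)) *
      (Real.exp (-(2 ^ t * al (k - 1))) * Real.exp (-(2 ^ t * al (k + 1)))) =
      Real.exp (-(2 ^ t * al k)) ^ 2 := by
    rw [← Real.exp_nat_mul, ← Real.exp_add, ← Real.exp_add]
    congr 1
    unfold cc
    push_cast
    ring
  have h2 : Real.exp (-(2 ^ t * al k)) ^ 2 ≠ 0 := pow_ne_zero _ (Real.exp_pos _).ne'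
  rw [mul_pow, ← h1]
  rw [← h1] at h2
  rw [eq_comm]
  calc Real.exp (-(2 ^ t * cc al k)) *
      ((T^[t] b) (k - 1) * Real.exp (-(2 ^ t * al (k - 1))) *
        ((T^[t] b) (k + 1) * Real.exp (-(2 ^ t * al (k + 1))))) /
      ((T^[t] b) k ^ 2 * (Real.exp (-(2 ^ t * cc al k)) *
        (Real.exp (-(2 ^ t * al (k - 1))) * Real.exp (-(2 ^ t * al (k + 1))))))
      = ((T^[t] b) (k - 1) * (T^[t] b) (k + 1) * (Real.exp (-(2 ^ t * cc al k)) *
        (Real.exp (-(2 ^ t * al (k - 1))) * Real.exp (-(2 ^ t * al (k + 1)))))) /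
      ((T^[t] b) k ^ 2 * (Real.exp (-(2 ^ t * cc al k)) *
        (Real.exp (-(2 ^ t * al (k - 1))) * Real.exp (-(2 ^ t * al (k + 1)))))) := by ring_nf
    _ = (T^[t] b) (k - 1) * (T^[t] b) (k + 1) / (T^[t] b) k ^ 2 := mul_div_mul_right _ _ h2

theorem gg_tendsto {S : Finset ℕ} {b al F : ℕ → ℝ} {Z : Finset ℕ} {c0 C : ℝ}
    (h : Dat S b al F Z c0 C) {k : ℕ} (hk : k ∈ S) :
    Tendsto (fun t => gg b al t k) atTop (𝓝 (F k)) := by
  rw [tendsto_iff_norm_sub_tendsto_zero]
  refine squeeze_zero (fun t => norm_nonneg _) (fun t => ?_)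
    (by simpa using (exp_dbl_tendsto h.c0pos).const_mul C)
  rw [Real.norm_eq_abs]
  exact h.rate t k hk

theorem hUL : StUL := by
  intro S b al F Z c0 C h
  have key : ∀ k ∈ act S, Tendsto (fun t => (gg b al t (k - 1) * gg b al t (k + 1)) /
      gg b al t k ^ 2) atTop (𝓝 (F (k - 1) * F (k + 1) / F k ^ 2)) := by
    intro k hk
    obtain ⟨h0, h1, h2⟩ := mem_act.1 hk
    have hF : F k ^ 2 ≠ 0 := by
      have := h.F1 k h0
      positivity
    exact ((gg_tendsto h h1).mul (gg_tendsto h h2)).div ((gg_tendsto h h0).pow 2) hF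
  constructor
  · intro k hk
    have hka := h.ZS hk
    have hcc : 0 < cc al k := lt_of_lt_of_le h.c0pos (h.hZ k hk)
    have h1 := (exp_dbl_tendsto hcc).mul (key k hka)
    rw [zero_mul] at h1
    refine h1.congr (fun t => ?_)
    rw [uu_eq (al := al) t k, mul_comm (cc al k)]
    ring
  · intro k hk
    have hka : k ∈ act S := (Finset.mem_sdiff.1 hk).1
    obtain ⟨h0, h1, h2⟩ := mem_act.1 hka
    have hF0 : 1 ≤ F k := h.F1 k h0
    have hFY := h.FY k hk
    have hp : 1 ≤ F (k - 1) * F (k + 1) := one_le_mul_of_one_le_of_one_le (h.F1 _ h1) (h.F1 _ h2)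
    have hF1 : 1 < F k := by nlinarith
    have hlim : F (k - 1) * F (k + 1) / F k ^ 2 = 1 - 1 / F k := by
      have : F (k - 1) * F (k + 1) = F k ^ 2 - F k := by linarith
      rw [this]
      field_simp
    refine ⟨?_, ?_, ?_⟩
    · rw [← hlim]
      refine (key k hka).congr (fun t => ?_)
      rw [uu_eq (al := al) t k, h.hY k hk, mul_zero, neg_zero, Real.exp_zero, one_mul]
    · rw [sub_pos, div_lt_one (by linarith)]
      exact hF1
    · have : 0 < 1 / F k := by positivity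
      linarith

end Pool.Agent.Helper4.DF
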